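import Pool.Agent.H639Z.OP.Basic

set_option autoImplicit false
open MeasureTheory Filter Topology
open scoped ENNReal

namespace Pool.Agent.H639Z.OP

variable {d : ℕ}

namespace Rellich

/-- the integral of `w` over the ball of radius `h` round `x` -/
noncomputable def av (w : X d → ℝ) (h : ℝ) (x : X d) : ℝ :=
  ∫ y in Metric.closedBall (0 : X d) h, w (x + y)

theorem shift2 {w : X d → ℝ} (hw : MemLp w 2 volume) (y : X d) :
    MemLp (fun x => w (x + y)) 2 volume :=
  hw.comp_measurePreserving (measurePreserving_add_right volume y)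

theorem shift2' {w : X d → ℝ} (hw : MemLp w 2 volume) (x : X d) :
    MemLp (fun y => w (x + y)) 2 volume :=
  hw.comp_measurePreserving (measurePreserving_add_left volume x)

theorem prod2 {w : X d → ℝ} (hw : MemLp w 2 volume) (h : ℝ) :
    MemLp (fun z : X d × X d => w (z.1 + z.2)) 2
      ((volume : Measure (X d)).prod (volume.restrict (Metric.closedBall (0 : X d) h))) := by
  have : IsFiniteMeasure (volume.restrict (Metric.closedBall (0 : X d) h)) :=
    isFiniteMeasure_restrict.2 measure_closedBall_lt_top.ne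
  exact (hw.comp_fst (volume.restrict (Metric.closedBall (0 : X d) h))).comp_measurePreserving
    (measurePreserving_add_prod volume (volume.restrict (Metric.closedBall (0 : X d) h)))

theorem av_meas {w : X d → ℝ} (hw : MemLp w 2 volume) (h : ℝ) :
    AEStronglyMeasurable (av w h) volume :=
  (prod2 hw h).1.integral_prod_right'

theorem av_bound {w : X d → ℝ} (hw : MemLp w 2 volume) (h : ℝ) (x : X d) :
    |av w h x| ≤ (∫ z, w z * w z) + volume.real (Metric.closedBall (0 : X d) h) := by
  have : IsFiniteMeasure (volume.restrict (Metric.closedBall (0 : X d) h)) :=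
    isFiniteMeasure_restrict.2 measure_closedBall_lt_top.ne
  have h1 := int_mul (shift2' hw x) (shift2' hw x)
  have h2 : ∫ y in Metric.closedBall (0 : X d) h, w (x + y) * w (x + y) ≤ ∫ z, w z * w z := by
    rw [← integral_add_left_eq_self (fun z => w z * w z) x]
    exact setIntegral_le_integral h1 (Eventually.of_forall fun _ => mul_self_nonneg _)
  have h3 : |av w h x| ≤ ∫ y in Metric.closedBall (0 : X d) h, (w (x + y) * w (x + y) + 1) := by
    rw [← Real.norm_eq_abs]
    refine norm_integral_le_of_norm_le (h1.integrableOn.add (integrable_const 1))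
      (Eventually.of_forall fun y => ?_)
    rw [Real.norm_eq_abs]
    nlinarith [sq_nonneg (|w (x + y)| - 1), sq_abs (w (x + y)), abs_nonneg (w (x + y))]
  rw [integral_add h1.integrableOn (integrable_const 1)] at h3
  simp only [integral_const, MeasurableSet.univ, measureReal_restrict_apply, Set.univ_inter,
    smul_eq_mul, mul_one] at h3
  linarith

theorem av_tendsto {w : ℕ → X d → ℝ} (hw : WConv w 0) (h : ℝ) (x : X d) :
    Tendsto (fun n => av (w n) h x) atTop (𝓝 0) := by
  have h1 : MemLp ((Metric.closedBall (0 : X d) h).indicator fun _ => (1 : ℝ)) 2 volume :=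
    memLp_indicator_const 2 measurableSet_closedBall 1 (Or.inr measure_closedBall_lt_top.ne)
  have h2 := hw _ (shift2' h1 (-x))
  simp only [Pi.zero_apply, zero_mul, integral_zero] at h2
  refine h2.congr fun n => ?_
  rw [← integral_add_left_eq_self _ x, av, ← integral_indicator measurableSet_closedBall]
  congr 1
  funext y
  simp only [neg_add_cancel_left]
  by_cases hy : y ∈ Metric.closedBall (0 : X d) h <;> simp [Set.indicator, hy]

theorem main_ineq {w : X d → ℝ} (hw : MemLp w 2 volume) {h A ε : ℝ} (hε : 0 < ε)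
    (ht : ∀ y : X d, ‖y‖ ≤ h → ∫ x, (w (x + y) - w x) ^ 2 ≤ A) {K : Set (X d)} (hK : IsCompact K)
    (hz : ∀ᵐ x ∂volume, x ∉ K → w x = 0) :
    volume.real (Metric.closedBall (0 : X d) h) * (2 * (∫ x, w x * w x) - A) ≤
      2 * (ε * (∫ x, w x * w x) + ε⁻¹ * ∫ x in K, av w h x ^ 2) := by
  have : IsFiniteMeasure (volume.restrict (Metric.closedBall (0 : X d) h)) :=
    isFiniteMeasure_restrict.2 measure_closedBall_lt_top.ne
  have hKf : IsFiniteMeasure (volume.restrict K) := isFiniteMeasure_restrict.2 hK.measure_lt_top.ne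
  have hint : Integrable (Function.uncurry fun x y : X d => w x * w (x + y))
      ((volume : Measure (X d)).prod (volume.restrict (Metric.closedBall (0 : X d) h))) :=
    (hw.comp_fst (volume.restrict (Metric.closedBall (0 : X d) h))).integrable_mul (prod2 hw h)
  have h1 : ∀ y : X d, ‖y‖ ≤ h → 2 * (∫ x, w x * w x) - A ≤ 2 * ∫ x, w x * w (x + y) := by
    intro y hy
    have h0 := ht y hy
    have e : ∀ x, (w (x + y) - w x) ^ 2 =
        (w (x + y) * w (x + y) + w x * w x) - 2 * (w x * w (x + y)) := fun x => by ring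
    simp only [e] at h0
    have i1 := int_mul (shift2 hw y) (shift2 hw y)
    have i2 := int_mul hw hw
    have i3 := int_mul hw (shift2 hw y)
    have i4 : Integrable (fun x => w (x + y) * w (x + y) + w x * w x) volume := i1.add i2
    rw [integral_sub i4 (i3.const_mul 2), integral_add i1 i2, integral_const_mul,
      integral_add_right_eq_self (fun z => w z * w z) y] at h0
    linarith
  have h2 : ∫ _y in Metric.closedBall (0 : X d) h, (2 * (∫ x, w x * w x) - A) ≤
      ∫ y in Metric.closedBall (0 : X d) h, 2 * ∫ x, w x * w (x + y) := by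
    refine setIntegral_mono_on (integrable_const _) (hint.integral_prod_right.const_mul 2)
      measurableSet_closedBall fun y hy => h1 y ?_
    simpa using hy
  rw [integral_const_mul, ← integral_integral_swap hint] at h2
  simp only [integral_const, MeasurableSet.univ, measureReal_restrict_apply, Set.univ_inter,
    smul_eq_mul] at h2
  have hF2 : IntegrableOn (fun x => av w h x ^ 2) K volume := by
    refine Integrable.of_bound ((av_meas hw h).restrict.pow 2)
      (((∫ z, w z * w z) + volume.real (Metric.closedBall (0 : X d) h)) ^ 2)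
      (Eventually.of_forall fun x => ?_)
    rw [Real.norm_eq_abs, abs_pow]
    exact pow_le_pow_left₀ (abs_nonneg _) (av_bound hw h x) 2
  have h3 : ∫ x, ∫ y in Metric.closedBall (0 : X d) h, w x * w (x + y) ≤
      ∫ x, (ε * (w x * w x) + ε⁻¹ * K.indicator (fun x => av w h x ^ 2) x) := by
    refine integral_mono_ae hint.integral_prod_left (((int_mul hw hw).const_mul ε).add
      (((integrable_indicator_iff hK.measurableSet).2 hF2).const_mul ε⁻¹)) ?_
    filter_upwards [hz] with x hx
    rw [integral_const_mul]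
    change w x * av w h x ≤ _
    by_cases hxK : x ∈ K
    · rw [Set.indicator_of_mem hxK]
      have e : ε * (w x * w x) + ε⁻¹ * av w h x ^ 2 - 2 * (w x * av w h x) =
          ε⁻¹ * (ε * w x - av w h x) ^ 2 := by
        field_simp
        ring
      have e1 : 0 ≤ ε⁻¹ * (ε * w x - av w h x) ^ 2 := by positivity
      have e2 : 0 ≤ ε * (w x * w x) := mul_nonneg hε.le (mul_self_nonneg _)
      have e3 : 0 ≤ ε⁻¹ * av w h x ^ 2 := by positivity
      linarith
    · simp [hx hxK, Set.indicator_of_notMem hxK]
  rw [integral_add ((int_mul hw hw).const_mul ε)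
    (((integrable_indicator_iff hK.measurableSet).2 hF2).const_mul ε⁻¹), integral_const_mul,
    integral_const_mul, integral_indicator hK.measurableSet] at h3
  linarith

end Rellich

theorem rellich (trans_est : ∀ {f : P d}, H1 f → ∀ y : X d,
      ∫ x, (f.1 (x + y) - f.1 x) ^ 2 ≤ d * ‖y‖ ^ 2 * G f f)
    {K : Set (X d)} (hK : IsCompact K) {f : ℕ → P d} (hf : ∀ n, H1 (f n))
    (hz : ∀ n, ∀ᵐ x ∂volume, x ∉ K → (f n).1 x = 0) {C : ℝ} (hB : ∀ n, B (f n) (f n) ≤ C)
    (hG : ∀ n, G (f n) (f n) ≤ C) (hw : WConv (fun n => (f n).1) 0) :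
    Tendsto (fun n => B (f n) (f n)) atTop (𝓝 0) := by
  have hC : 0 ≤ C := (B_nonneg _).trans (hB 0)
  have hKf : IsFiniteMeasure (volume.restrict K) := isFiniteMeasure_restrict.2 hK.measure_lt_top.ne
  rw [Metric.tendsto_atTop]
  intro δ hδ
  obtain ⟨h, hh, hh1, hh2⟩ : ∃ h : ℝ, 0 < h ∧ h ≤ 1 ∧ h * (d * C + 1) ≤ δ := by
    have hp : 0 < d * C + 1 := by positivity
    refine ⟨min 1 (δ / (d * C + 1)), by positivity, min_le_left _ _, ?_⟩
    rw [← le_div_iff₀ hp]
    exact min_le_right _ _
  obtain ⟨v, hv⟩ : ∃ v, v = volume.real (Metric.closedBall (0 : X d) h) := ⟨_, rfl⟩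
  have hv0 : 0 < v := by
    rw [hv]
    exact ENNReal.toReal_pos (Metric.measure_closedBall_pos _ _ hh).ne'
      measure_closedBall_lt_top.ne
  have hI : Tendsto (fun n => ∫ x in K, Rellich.av (f n).1 h x ^ 2) atTop (𝓝 0) := by
    have := tendsto_integral_of_dominated_convergence (μ := volume.restrict K)
      (F := fun n x => Rellich.av (f n).1 h x ^ 2) (f := fun _ => (0 : ℝ))
      (fun _ => (C + v) ^ 2) (fun n => (Rellich.av_meas (hf n).u2 h).restrict.pow 2)
      (integrable_const _) (fun n => Eventually.of_forall fun x => ?_)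
      (Eventually.of_forall fun x => ?_)
    · simpa using this
    · rw [Real.norm_eq_abs, abs_pow]
      refine pow_le_pow_left₀ (abs_nonneg _) ((Rellich.av_bound (hf n).u2 h x).trans ?_) 2
      rw [← hv]
      exact add_le_add (hB n) le_rfl
    · simpa using (Rellich.av_tendsto hw h x).pow 2
  have hε : 0 < v / 4 := by positivity
  obtain ⟨N, hN⟩ := Metric.tendsto_atTop.1 hI (δ * v ^ 2 / 16) (by positivity)
  refine ⟨N, fun n hn => ?_⟩
  have h1 := hN n hn
  rw [Real.dist_eq, sub_zero] at h1 ⊢
  have h2 := Rellich.main_ineq (hf n).u2 (h := h) (A := δ) hε (fun y hy => ?_) hK (hz n)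
  · rw [← hv] at h2
    change v * (2 * B (f n) (f n) - δ) ≤ 2 * (v / 4 * B (f n) (f n) + _) at h2
    rw [abs_of_nonneg (B_nonneg _)]
    have h3 : (v / 4)⁻¹ * ∫ x in K, Rellich.av (f n).1 h x ^ 2 < δ * v / 4 := by
      rw [inv_mul_lt_iff₀ hε]
      have := (abs_lt.1 h1).2
      linarith
    have h4 : v * B (f n) (f n) < v * δ := by linarith
    exact lt_of_mul_lt_mul_left h4 hv0.le
  · refine (trans_est (hf n) y).trans ?_
    have e1 : ‖y‖ ^ 2 ≤ h := by nlinarith [norm_nonneg y]
    have e2 : (d : ℝ) * ‖y‖ ^ 2 * G (f n) (f n) ≤ d * h * C :=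
      mul_le_mul (mul_le_mul_of_nonneg_left e1 (by positivity)) (hG n) (G_nonneg _)
        (by positivity)
    nlinarith

end Pool.Agent.H639Z.OP
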